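import Mathlib
import Pool.Agent.H852.QP.Gen
import Pool.Agent.W613.Window

set_option autoImplicit false

/-!
# SHGH for blow-ups of the plane at generic points: exponentially thin window

Let `k` be an algebraically closed field of any characteristic, `s ≥ 2 ^ 1000`, and let `P i`,
`i < s`, be generic points of the plane over `k`. Put `ε = exp (-s ^ (1 / 10)) / s`. For all
multiplicities `w` and all `d` with `√s d ≤ (1 - ε) ∑ w i`, or
`√s d < ∑ w i ≤ √s exp (s ^ (1 / 10) / 2) / 2`, or `√s (w i + 1) ≤ (1 - ε) d` for all `i`, the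
space of forms of degree `d` with multiplicities at least `w i` at the points has the expected
dimension. In particular the class `d H - ∑ w i E i` has `h¹ = 0` if it is effective.
-/

namespace Pool.Agent.Results.MP_0dccba_ag.ExponentialWindow

open MvPolynomial Pool.Agent.H932R5

universe u

/-- The homogeneous ideal of the fat points with support `(1 : P i 0 : P i 1)` and multiplicity
`w i`: the intersection of the `w i`-th powers of the ideals of the points. -/
noncomputable def fat {k : Type u} [Field k] {s : ℕ} (P : Fin s → Fin 2 → k) (w : Fin s → ℕ) :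
    Ideal (MvPolynomial (Fin 3) k) :=
  ⨅ i : Fin s, (Ideal.span {X 1 - C (P i 0) * X 0, X 2 - C (P i 1) * X 0}) ^ (w i)

theorem result (k : Type u) [Field k] [IsAlgClosed k] (s : ℕ) (hs : 2 ^ 1000 ≤ s)
    (P : Fin s → Fin 2 → k)
    (hP : AlgebraicIndependent (⊥ : Subfield k) (fun ij : Fin s × Fin 2 => P ij.1 ij.2))
    (w : Fin s → ℕ) (d : ℕ)
    (hd : (0 < ∑ i, w i ∧
          Real.sqrt s * d ≤ (1 - Real.exp (-((s : ℝ) ^ (1 / 10 : ℝ))) / s) * ∑ i, (w i : ℝ)) ∨
        (Real.sqrt s * d < ∑ i, (w i : ℝ) ∧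
          ∑ i, (w i : ℝ) ≤ Real.sqrt s * Real.exp ((s : ℝ) ^ (1 / 10 : ℝ) / 2) / 2) ∨
        (∀ i, Real.sqrt s * (w i + 1) ≤ (1 - Real.exp (-((s : ℝ) ^ (1 / 10 : ℝ))) / s) * d)) :
    Module.finrank k
        ↥(homogeneousSubmodule (Fin 3) k d ⊓ Submodule.restrictScalars k (fat P w)) =
      Nat.choose (d + 2) 2 - ∑ i, Nat.choose (w i + 1) 2 := by
  have hsR : (2 : ℝ) ^ 1000 ≤ s := by
    have h1 : ((2 ^ 1000 : ℕ) : ℝ) ≤ (s : ℝ) := Nat.cast_le.2 hs
    rwa [Nat.cast_pow, Nat.cast_ofNat] at h1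
  have hVd : (homogeneousSubmodule (Fin 3) k d ⊓ Submodule.restrictScalars k (fat P w)) =
      Vd (E := 1) d w P := by
    unfold fat
    rw [H852.QP.Vd_plane]
  rw [hVd]
  have e1 : (d + 1 + 1).choose (1 + 1) = (d + 2).choose 2 := rfl
  have e2 : ∑ i, (w i + 1).choose (1 + 1) = ∑ i, (w i + 1).choose 2 := rfl
  have hE : EmptyAt (E := 1) w P d → Module.finrank k ↥(Vd (E := 1) d w P) =
      Nat.choose (d + 2) 2 - ∑ i, Nat.choose (w i + 1) 2 := by
    intro h1
    have h2 := finrank_ge (E := 1) (K := k) d w P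
    have h3 := h1.finrank
    rw [h3] at h2 ⊢
    omega
  rcases hd with ⟨h0, hd⟩ | ⟨hd, hd'⟩ | hd
  · exact hE (Pool.Agent.W613.empty_winE hsR hP h0 (Or.inl hd))
  · have h0 : 0 < ∑ i, w i := by
      have h1 : (0 : ℝ) < ∑ i, (w i : ℝ) := lt_of_le_of_lt (by positivity) hd
      exact_mod_cast h1
    exact hE (Pool.Agent.W613.empty_winE hsR hP h0 (Or.inr ⟨hd, hd'⟩))
  · have h4 : ∑ i, Nat.choose (w i + 1) 2 + Module.finrank k ↥(Vd (E := 1) d w P) =
        Nat.choose (d + 2) 2 := (Pool.Agent.W613.surjE hsR hP hd).finrank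
    exact (Nat.sub_eq_of_eq_add' h4.symm).symm

end Pool.Agent.Results.MP_0dccba_ag.ExponentialWindow
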