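import Mathlib
import Pool.Agent.H852.QP.Hom
import Pool.Agent.W610.NearX

set_option autoImplicit false

/-!
# Effective divisors with nearly equal multiplicities, exponential range

For every `ε > 0` there is an `N` such that the following holds. Let `P i`, `i < s`, be `s ≥ N`
points of the plane over a field `k` of characteristic zero whose `2 s` coordinates are
algebraically independent over `ℚ`, and let `w i ∈ {m, m + 1}` with
`1 ≤ m ≤ exp (s ^ (1 / 1000) / 2)`. If `|2 d + 3 - √s - 2 (∑ w i) / √s| ≥ ε`, then the space of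
forms of degree `d` with multiplicity at least `w i` at `P i` for all `i` has the expected
dimension; in particular, if it is not zero, the conditions are independent, so that the divisor
class `d H - ∑ w i E i` has `h¹ = 0`.
-/

namespace Pool.Agent.Results.MP_0dccba_ag.NearUniformExponential

/-- The homogeneous ideal of the fat points with support `(P i 0 : P i 1 : 1)` and multiplicity
`w i`: the intersection of the `w i`-th powers of the ideals of the points. -/
noncomputable def fat {k : Type} [Field k] {s : ℕ} (P : Fin s → Fin 2 → k) (w : Fin s → ℕ) :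
    Ideal (MvPolynomial (Fin 3) k) :=
  ⨅ i : Fin s,
    (Ideal.span
      ({MvPolynomial.X 0 - MvPolynomial.C (P i 0) * MvPolynomial.X 2,
        MvPolynomial.X 1 - MvPolynomial.C (P i 1) * MvPolynomial.X 2} :
        Set (MvPolynomial (Fin 3) k))) ^ (w i)

/-- The forms of degree `d` with multiplicity at least `w i` at `P i` for all `i`. -/
noncomputable def forms {k : Type} [Field k] {s : ℕ} (P : Fin s → Fin 2 → k) (w : Fin s → ℕ)
    (d : ℕ) : Submodule k (MvPolynomial (Fin 3) k) :=
  MvPolynomial.homogeneousSubmodule (Fin 3) k d ⊓ Submodule.restrictScalars k (fat P w)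

theorem result (ε : ℝ) (hε : 0 < ε) : ∃ N : ℕ, ∀ (k : Type) [Field k] [CharZero k] (s : ℕ),
    N ≤ s → ∀ m : ℕ, 0 < m → (m : ℝ) ≤ Real.exp ((s : ℝ) ^ (1 / 1000 : ℝ) / 2) →
    ∀ w : Fin s → ℕ, (∀ i, w i = m ∨ w i = m + 1) →
    ∀ P : Fin s → Fin 2 → k,
    AlgebraicIndependent ℚ (fun ij : Fin s × Fin 2 => P ij.1 ij.2) →
    ∀ d : ℕ, ε ≤ |2 * (d : ℝ) + 3 - Real.sqrt s - 2 * (∑ i, (w i : ℝ)) / Real.sqrt s| →
    Module.finrank k (forms P w d) = Nat.choose (d + 2) 2 - ∑ i, Nat.choose (w i + 1) 2 ∧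
    ((∃ G ∈ forms P w d, G ≠ 0) →
      Module.finrank k (forms P w d) + ∑ i, Nat.choose (w i + 1) 2 = Nat.choose (d + 2) 2) := by
  obtain ⟨N, hN, h'⟩ := Pool.Agent.W610.near_uniformX hε
  refine ⟨N, fun k _ _ s hs m hm hmX w hw P hP d hd => ?_⟩
  obtain ⟨F, hF, hF'⟩ := h' k s hs m hm hmX w hw
  have h1 := hF' P (fun h0 => hF (hP.eq_zero_of_aeval_eq_zero F h0)) d hd
  refine ⟨h1, ?_⟩
  rintro ⟨G, hGm, hG⟩
  unfold forms fat at hGm ⊢
  rw [Submodule.mem_inf, Submodule.restrictScalars_mem, Ideal.mem_iInf] at hGm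
  exact h1.eff hG hGm.1 hGm.2

end Pool.Agent.Results.MP_0dccba_ag.NearUniformExponential
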