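import Mathlib
import Pool.Agent.W609.CR.Prime

set_option autoImplicit false

/-!
# Prime divisors with at most five multiplicities above a bound

Let `P i`, `i < s`, be `s ≥ 4` points of the plane over a field `k` of characteristic zero whose
`2 s` coordinates are algebraically independent over `ℚ`, and let `m ≥ 1`. Let `G` be an irreducible
form of degree `e` with multiplicity exactly `w i` at `P i`, where `w i ≤ m` for all but at most
five `i`. If the arithmetic genus `(e - 1) (e - 2) / 2 - ∑ w i (w i - 1) / 2` of the corresponding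
prime divisor on the blow-up, or the dimension of the space of forms of degree `e` with
multiplicity at least `w i` at `P i` for all `i`, is at least `2 ^ 17 (4 m ^ 2 + 8 m + 5) ^ 4`, then
the prime divisor has `h¹ = 0`.
-/

namespace Pool.Agent.Results.MP_0dccba_ag.PrimeFiveArbitrary

open MvPolynomial

/-- The homogeneous ideal of the point `(P 0 : P 1 : 1)`. -/
noncomputable def pt {k : Type} [Field k] (P : Fin 2 → k) : Ideal (MvPolynomial (Fin 3) k) :=
  Ideal.span
    ({MvPolynomial.X 0 - MvPolynomial.C (P 0) * MvPolynomial.X 2,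
      MvPolynomial.X 1 - MvPolynomial.C (P 1) * MvPolynomial.X 2} :
      Set (MvPolynomial (Fin 3) k))

/-- The forms of degree `d` with multiplicity at least `w i` at `P i` for all `i`. -/
noncomputable def forms {k : Type} [Field k] {s : ℕ} (P : Fin s → Fin 2 → k) (w : Fin s → ℕ)
    (d : ℕ) : Submodule k (MvPolynomial (Fin 3) k) :=
  MvPolynomial.homogeneousSubmodule (Fin 3) k d ⊓
    Submodule.restrictScalars k (⨅ i : Fin s, pt (P i) ^ (w i))

theorem result (k : Type) [Field k] [CharZero k] (r m : ℕ) (hm : 0 < m)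
    (P : Fin (r + 4) → Fin 2 → k)
    (hP : AlgebraicIndependent ℚ (fun ij : Fin (r + 4) × Fin 2 => P ij.1 ij.2))
    (w : Fin (r + 4) → ℕ) (hw : (Finset.univ.filter fun i => m < w i).card ≤ 5)
    (e : ℕ) (G : MvPolynomial (Fin 3) k) (hG : Irreducible G) (hGe : G.IsHomogeneous e)
    (hord : ∀ i, G ∈ pt (P i) ^ (w i) ∧ G ∉ pt (P i) ^ (w i + 1))
    (hbig : 131072 * (4 * m ^ 2 + 8 * m + 5) ^ 4 + ∑ i, (w i).choose 2 ≤ (e - 1).choose 2 ∨
      131072 * (4 * m ^ 2 + 8 * m + 5) ^ 4 ≤ Module.finrank k ↥(forms P w e)) :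
    Module.finrank k ↥(forms P w e) + ∑ i, (w i + 1).choose 2 = (e + 2).choose 2 := by
  have hforms : forms P w e = W609.CR.VS (fun j => W609.CR.aff (P j)) w e := by
    rw [W609.CR.vs_eq_forms]
    ext f
    unfold forms H248R5.forms
    rw [Submodule.mem_inf, Submodule.mem_inf, Submodule.restrictScalars_mem,
      Submodule.restrictScalars_mem]
    rfl
  rw [hforms]
  rw [hforms] at hbig
  have he0 := W609.CR.deg_pos hG hGe
  refine W609.CR.prime_main hm rfl e e le_rfl P hP w hw G hG hGe (fun j => ?_) ?_
  · exact ⟨(W609.CR.t_link k (P j) (w j) G e hGe).2 (hord j).1,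
      fun h => (hord j).2 ((W609.CR.t_link k (P j) (w j + 1) G e hGe).1 h)⟩
  · rcases hbig with h | h
    · left
      have h1 : ∀ x : ℕ, (x + 1).choose 2 = x.choose 2 + x := fun x => by
        have := Nat.choose_succ_succ' x 1
        rw [Nat.choose_one_right] at this
        exact this.trans (Nat.add_comm _ _)
      have h2 : ∑ j, (w j + 1).choose 2 = ∑ j, (w j).choose 2 + ∑ j, w j := by
        rw [← Finset.sum_add_distrib]
        exact Finset.sum_congr rfl fun j _ => h1 (w j)
      obtain ⟨e', rfl⟩ : ∃ e', e = e' + 1 := ⟨e - 1, by omega⟩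
      have h3 : (e' + 1 + 2).choose 2 = e'.choose 2 + 3 * (e' + 1) := by
        rw [h1 (e' + 1 + 1), h1 (e' + 1), h1 e']
        omega
      rw [Nat.add_sub_cancel] at h
      omega
    · right
      exact h

end Pool.Agent.Results.MP_0dccba_ag.PrimeFiveArbitrary
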